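import Pool.Agent.Q4.ZS.Stm2

/-!
# Project ZS, job ZS-REP2: real representations of subgroups of small index of `Q_8^n`
-/

set_option autoImplicit false
set_option linter.unusedSectionVars false

namespace Q150.ZS

open Module

section caseB

variable {A : Type} [Group A] {W : Type} [AddCommGroup W] [Module ℝ W]

theorem comm_pm (r : A →* (W →ₗ[ℝ] W)) (hpm : ∀ a, r a * r a = 1 ∨ r a * r a = -1) (a b : A) :
    r a * r b = r b * r a ∨ r a * r b = -(r b * r a) := by
  have h3 : r a * r b * (r a * r b) = 1 ∨ r a * r b * (r a * r b) = -1 := by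
    have := hpm (a * b)
    rwa [map_mul] at this
  have key : r a * r b * (r a * r b) * (r b * r a) = r a * r b * r a * (r b * r b) * r a := by
    simp only [mul_assoc]
  rcases hpm a with h1 | h1 <;> rcases hpm b with h2 | h2 <;> rcases h3 with h3 | h3 <;>
    rw [h3, h2] at key
  all_goals
    simp only [one_mul, mul_one, neg_mul, mul_neg, mul_assoc, h1] at key
  all_goals first
    | exact Or.inl key.symm
    | exact Or.inr key.symm
    | exact Or.inl (neg_inj.1 key).symm
    | exact Or.inr (neg_eq_iff_eq_neg.1 key.symm)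
    | exact Or.inl (key.trans (neg_neg _)).symm
    | exact Or.inr (key.trans (neg_neg _)).symm

theorem four [FiniteDimensional ℝ W] (hd : finrank ℝ W ≤ 3) (a b c d : W)
    (h : ∀ x y z t : ℝ, x • a + y • b + z • c + t • d = 0 → x = 0 ∧ y = 0 ∧ z = 0 ∧ t = 0) :
    False := by
  have h1 : LinearIndependent ℝ ![a, b, c, d] := by
    rw [Fintype.linearIndependent_iff]
    intro g hg
    rw [Fin.sum_univ_four] at hg
    obtain ⟨h1, h2, h3, h4⟩ := h _ _ _ _ hg
    intro i
    fin_cases i
    · exact h1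
    · exact h2
    · exact h3
    · exact h4
  have h2 := h1.fintype_card_le_finrank
  rw [Fintype.card_fin] at h2
  omega

theorem sq2 {x y : ℝ} (h : x ^ 2 + y ^ 2 = 0) : x = 0 ∧ y = 0 := by
  constructor <;> nlinarith [sq_nonneg x, sq_nonneg y]

/-- case B -/
theorem caseB [FiniteDimensional ℝ W] [Nontrivial W] (r : A →* (W →ₗ[ℝ] W))
    (hd : finrank ℝ W ≤ 3) (hpm : ∀ a, r a * r a = 1 ∨ r a * r a = -1) :
    ∃ H : Subgroup A, (∀ x y, x ∉ H → y ∉ H → x⁻¹ * y ∈ H) ∧ ∀ x ∈ H, r x * r x = 1 := by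
  have hinv : ∀ a, r a * r a⁻¹ = 1 := fun a => by rw [← map_mul, mul_inv_cancel, map_one]
  have hinv' : ∀ a, r a⁻¹ * r a = 1 := fun a => by rw [← map_mul, inv_mul_cancel, map_one]
  by_cases hj : ∃ j : A, r j * r j = 1 ∧ r j ≠ 1 ∧ r j ≠ -1
  · obtain ⟨j, hj1, hj2, hj3⟩ := hj
    let H : Subgroup A :=
      { carrier := {y | r y * r j = r j * r y}
        one_mem' := by
          change r 1 * r j = r j * r 1
          rw [map_one, one_mul, mul_one]
        mul_mem' := by
          intro x y hx hy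
          change r (x * y) * r j = r j * r (x * y)
          change r x * r j = r j * r x at hx
          change r y * r j = r j * r y at hy
          rw [map_mul, mul_assoc, hy, ← mul_assoc, hx, mul_assoc]
        inv_mem' := by
          intro x hx
          change r x⁻¹ * r j = r j * r x⁻¹
          change r x * r j = r j * r x at hx
          calc r x⁻¹ * r j = r x⁻¹ * (r j * r x) * r x⁻¹ := by
                rw [mul_assoc, mul_assoc, hinv, mul_one]
            _ = r x⁻¹ * (r x * r j) * r x⁻¹ := by rw [hx]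
            _ = r j * r x⁻¹ := by rw [← mul_assoc, hinv', one_mul] }
    have hmem : ∀ y, y ∈ H ↔ r y * r j = r j * r y := fun y => Iff.rfl
    refine ⟨H, fun x y hx hy => ?_, fun x hx => ?_⟩
    · have hx' := (comm_pm r hpm x j).resolve_left hx
      have hy' := (comm_pm r hpm y j).resolve_left hy
      rw [hmem, map_mul, mul_assoc, hy', mul_neg, ← mul_assoc, ← mul_assoc]
      have h1 : r x⁻¹ * r j = -(r j * r x⁻¹) := by
        calc r x⁻¹ * r j = -(r x⁻¹ * -(r j * r x) * r x⁻¹) := by
              rw [mul_neg, neg_mul, neg_neg, mul_assoc, mul_assoc, hinv, mul_one]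
          _ = -(r x⁻¹ * (r x * r j) * r x⁻¹) := by rw [hx']
          _ = -(r j * r x⁻¹) := by rw [← mul_assoc, hinv', one_mul]
      rw [h1, neg_mul, neg_neg]
    · by_contra hcon
      have hx2 := (hpm x).resolve_left hcon
      rw [hmem] at hx
      -- a vector in each eigenspace
      obtain ⟨w₁, hw₁⟩ : ∃ w, w + r j w ≠ 0 := by
        by_contra hc
        push Not at hc
        apply hj3
        ext w
        rw [LinearMap.neg_apply, Module.End.one_apply]
        exact (neg_eq_of_add_eq_zero_right (hc w)).symm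
      obtain ⟨w₂, hw₂⟩ : ∃ w, w - r j w ≠ 0 := by
        by_contra hc
        push Not at hc
        apply hj2
        ext w
        rw [Module.End.one_apply]
        exact (sub_eq_zero.1 (hc w)).symm
      have hjj : ∀ w, r j (r j w) = w := fun w => LinearMap.congr_fun hj1 w
      have hxx : ∀ w, r x (r x w) = -w := fun w => LinearMap.congr_fun hx2 w
      have hxj : ∀ w, r x (r j w) = r j (r x w) := fun w => LinearMap.congr_fun hx w
      set u := w₁ + r j w₁ with hu
      set v := w₂ - r j w₂ with hv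
      have hju : r j u = u := by rw [hu, map_add, hjj, add_comm]
      have hjv : r j v = -v := by rw [hv, map_sub, hjj, neg_sub]
      have hjxu : r j (r x u) = r x u := by rw [← hxj, hju]
      have hjxv : r j (r x v) = -(r x v) := by rw [← hxj, hjv, map_neg]
      refine four hd u (r x u) v (r x v) ?_
      intro α β γ δ h
      have h1 := congrArg (r j) h
      simp only [map_add, map_smul, map_zero, hju, hjv, hjxu, hjxv] at h1
      have h2 : α • u + β • r x u = 0 := by
        have : (2 : ℝ) • (α • u + β • r x u) = 0 := by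
          linear_combination (norm := module) h + h1
        exact (smul_eq_zero.1 this).resolve_left two_ne_zero
      have h3 : γ • v + δ • r x v = 0 := by
        have : (2 : ℝ) • (γ • v + δ • r x v) = 0 := by
          linear_combination (norm := module) h - h1
        exact (smul_eq_zero.1 this).resolve_left two_ne_zero
      have h4 := congrArg (r x) h2
      have h5 := congrArg (r x) h3
      simp only [map_add, map_smul, map_zero, hxx] at h4 h5
      have h6 : (α ^ 2 + β ^ 2) • u = 0 := by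
        linear_combination (norm := module) α • h2 - β • h4
      have h7 : (γ ^ 2 + δ ^ 2) • v = 0 := by
        linear_combination (norm := module) γ • h3 - δ • h5
      obtain ⟨h8, h9⟩ := sq2 ((smul_eq_zero.1 h6).resolve_right hw₁)
      obtain ⟨h10, h11⟩ := sq2 ((smul_eq_zero.1 h7).resolve_right hw₂)
      exact ⟨h8, h9, h10, h11⟩
  · push Not at hj
    let H : Subgroup A :=
      { carrier := {y | r y = 1 ∨ r y = -1}
        one_mem' := Or.inl (map_one r)
        mul_mem' := by
          intro x y hx hy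
          change r (x * y) = 1 ∨ r (x * y) = -1
          rw [map_mul]
          rcases hx with hx | hx <;> rcases hy with hy | hy <;> rw [hx, hy] <;> simp
        inv_mem' := by
          intro x hx
          change r x⁻¹ = 1 ∨ r x⁻¹ = -1
          have h := hinv x
          rcases hx with hx | hx
          · left
            rwa [hx, one_mul] at h
          · right
            rw [hx, neg_mul, one_mul] at h
            rw [← h, neg_neg] }
    have hmem : ∀ y, y ∈ H ↔ (r y = 1 ∨ r y = -1) := fun y => Iff.rfl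
    have hnm : ∀ y, y ∉ H → r y * r y = -1 := by
      intro y hy
      refine (hpm y).resolve_left fun h => hy ?_
      rw [hmem]
      by_cases h1 : r y = 1
      · exact Or.inl h1
      · exact Or.inr (hj y h h1)
    refine ⟨H, fun x y hx hy => ?_, fun x hx => ?_⟩
    · by_contra hxy
      have hx2 := hnm x hx
      have hy2 := hnm y hy
      have hxy2 := hnm _ hxy
      have hxi : r x⁻¹ = -r x := by
        calc r x⁻¹ = -(r x * r x) * r x⁻¹ := by rw [hx2, neg_neg, one_mul]
          _ = -(r x * (r x * r x⁻¹)) := by rw [neg_mul, mul_assoc]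
          _ = -r x := by rw [hinv, mul_one]
      rw [map_mul, hxi] at hxy2
      have hXX : ∀ w, r x (r x w) = -w := fun w => LinearMap.congr_fun hx2 w
      have hYY : ∀ w, r y (r y w) = -w := fun w => LinearMap.congr_fun hy2 w
      have hXYXY : ∀ w, r x (r y (r x (r y w))) = -w := fun w => by
        have := LinearMap.congr_fun hxy2 w
        simpa using this
      have hYX : ∀ w, r y (r x w) = -(r x (r y w)) := by
        intro w
        have h1 := hXYXY (r y w)
        have h2 := congrArg (r x) h1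
        rw [hYY, hXX, map_neg, map_neg, map_neg] at h2
        rw [neg_neg] at h2
        exact h2
      obtain ⟨w, hw⟩ := exists_ne (0 : W)
      refine four hd w (r x w) (r y w) (r x (r y w)) ?_
      intro α β γ δ h
      have h1 := congrArg (r x) h
      have h2 := congrArg (r y) h
      have h3 := congrArg (r x) h2
      simp only [map_add, map_smul, map_zero, hXX, hYY, hYX, map_neg, neg_neg] at h1 h2 h3
      have h4 : (α ^ 2 + β ^ 2 + γ ^ 2 + δ ^ 2) • w = 0 := by
        linear_combination (norm := module) α • h - β • h1 - γ • h2 - δ • h3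
      have h5 := (smul_eq_zero.1 h4).resolve_right hw
      refine ⟨?_, ?_, ?_, ?_⟩ <;>
        nlinarith [sq_nonneg α, sq_nonneg β, sq_nonneg γ, sq_nonneg δ]
    · rcases hx with hx | hx <;> rw [hx] <;> simp

end caseB

section rep

variable {A : Type} [Group A] {V : Type} [AddCommGroup V] [Module ℝ V]

/-- invariant subspaces -/
def Inv (ρ : A →* (V →ₗ[ℝ] V)) (W : Submodule ℝ V) : Prop := ∀ a : A, ∀ v ∈ W, ρ a v ∈ W

theorem exists_min [FiniteDimensional ℝ V] (ρ : A →* (V →ₗ[ℝ] V)) (U : Submodule ℝ V)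
    (hU : U ≠ ⊥) (hUi : Inv ρ U) :
    ∃ W : Submodule ℝ V, W ≤ U ∧ W ≠ ⊥ ∧ Inv ρ W ∧
      ∀ W' : Submodule ℝ V, W' ≤ W → Inv ρ W' → W' = ⊥ ∨ W' = W := by
  classical
  have hex : ∃ d : ℕ, ∃ W : Submodule ℝ V, W ≤ U ∧ W ≠ ⊥ ∧ Inv ρ W ∧ finrank ℝ W = d :=
    ⟨_, U, le_rfl, hU, hUi, rfl⟩
  obtain ⟨W, h1, h2, h3, h4⟩ := Nat.find_spec hex
  refine ⟨W, h1, h2, h3, fun W' hW' hi => ?_⟩
  by_cases hb : W' = ⊥
  · exact Or.inl hb
  · right
    have h5 := Nat.find_min' hex ⟨W', hW'.trans h1, hb, hi, rfl⟩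
    rw [← h4] at h5
    exact Submodule.eq_of_le_of_finrank_le hW' h5

/-- the restriction of the representation to an invariant subspace -/
def res (ρ : A →* (V →ₗ[ℝ] V)) (W : Submodule ℝ V) (h : Inv ρ W) : A →* (W →ₗ[ℝ] W) where
  toFun a := (ρ a).restrict (h a)
  map_one' := by
    ext v
    simp
  map_mul' a b := by
    ext v
    simp

/-- the representation on the quotient by an invariant subspace -/
def quo (ρ : A →* (V →ₗ[ℝ] V)) (W : Submodule ℝ V) (h : Inv ρ W) :
    A →* ((V ⧸ W) →ₗ[ℝ] (V ⧸ W)) where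
  toFun a := W.mapQ W (ρ a) (h a)
  map_one' := by
    ext v
    simp
  map_mul' a b := by
    ext v
    simp

/-- the elements trivial on `W` -/
def KerW (ρ : A →* (V →ₗ[ℝ] V)) (W : Submodule ℝ V) (h : Inv ρ W) : Subgroup A where
  carrier := {a | res ρ W h a = 1}
  one_mem' := map_one _
  mul_mem' := by
    intro a b ha hb
    change res ρ W h (a * b) = 1
    change res ρ W h a = 1 at ha
    change res ρ W h b = 1 at hb
    rw [map_mul, ha, hb, one_mul]
  inv_mem' := by
    intro a ha
    change res ρ W h a⁻¹ = 1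
    change res ρ W h a = 1 at ha
    have : res ρ W h a * res ρ W h a⁻¹ = 1 := by rw [← map_mul, mul_inv_cancel, map_one]
    rwa [ha, one_mul] at this

theorem neg_mul_neg_one_one {W : Type} [AddCommGroup W] [Module ℝ W] :
    (-1 : W →ₗ[ℝ] W) * (-1 : W →ₗ[ℝ] W) = 1 := by
  ext w
  change -(-w) = w
  exact neg_neg w

/-- half of a subgroup -/
theorem half [Finite A] (H K : Subgroup A) (hH : ∀ x y, x ∈ K → y ∈ K → x ∉ H → y ∉ H →
    x⁻¹ * y ∈ H) : Nat.card K ≤ Nat.card (K ⊓ H : Subgroup A) * 2 := by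
  classical
  by_cases hK : ∃ a ∈ K, a ∉ H
  · obtain ⟨a, haK, haH⟩ := hK
    have hinj : Function.Injective (fun x : K => (if h : (x : A) ∈ H then
        ((⟨x, x.2, h⟩, true) : (K ⊓ H : Subgroup A) × Bool) else
        (⟨a⁻¹ * x, K.mul_mem (K.inv_mem haK) x.2, hH a x haK x.2 haH h⟩, false))) := by
      intro x y hxy
      by_cases hx : (x : A) ∈ H <;> by_cases hy : (y : A) ∈ H
      · simp only [dif_pos hx, dif_pos hy] at hxy
        have := congrArg (fun t : (K ⊓ H : Subgroup A) × Bool => (t.1 : A)) hxy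
        exact Subtype.ext this
      · simp only [dif_pos hx, dif_neg hy] at hxy
        have := congrArg Prod.snd hxy
        exact absurd this Bool.noConfusion
      · simp only [dif_neg hx, dif_pos hy] at hxy
        have := congrArg Prod.snd hxy
        exact absurd this Bool.noConfusion
      · simp only [dif_neg hx, dif_neg hy] at hxy
        have := congrArg (fun t : (K ⊓ H : Subgroup A) × Bool => (t.1 : A)) hxy
        exact Subtype.ext (mul_left_cancel this)
    have h1 := Nat.card_le_card_of_injective _ hinj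
    rwa [Nat.card_prod, Nat.card_eq_fintype_card (α := Bool), Fintype.card_bool] at h1
  · push Not at hK
    have h1 : K ⊓ H = K := inf_eq_left.2 hK
    rw [h1]
    omega

theorem half' [Finite A] (H K : Subgroup A) {a : A} (haK : a ∈ K) (haH : a ∉ H) :
    Nat.card (K ⊓ H : Subgroup A) * 2 ≤ Nat.card K := by
  obtain ⟨t, ht⟩ : Nat.card (K ⊓ H : Subgroup A) ∣ Nat.card K :=
    Subgroup.card_dvd_of_le inf_le_left
  have h1 : 0 < Nat.card K := Nat.card_pos
  have h2 : 2 ≤ t := by
    by_contra hlt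
    have h3 : t = 0 ∨ t = 1 := by omega
    rcases h3 with rfl | rfl
    · rw [mul_zero] at ht
      omega
    · rw [mul_one] at ht
      have h4 : K ⊓ H = K := Subgroup.eq_of_le_of_card_ge inf_le_left ht.le
      have h5 : a ∈ K ⊓ H := by rw [h4]; exact haK
      exact haH h5.2
  rw [ht]
  exact Nat.mul_le_mul_left _ h2

/-- a central involution acts as a sign on a minimal invariant subspace -/
theorem sign (ρ : A →* (V →ₗ[ℝ] V)) (W : Submodule ℝ V) (hWi : Inv ρ W)
    (hmin : ∀ W' : Submodule ℝ V, W' ≤ W → Inv ρ W' → W' = ⊥ ∨ W' = W) {z : A}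
    (hz : ∀ a, z * a = a * z) (hz2 : z * z = 1) :
    res ρ W hWi z = 1 ∨ res ρ W hWi z = -1 := by
  set K : Submodule ℝ V := W ⊓ LinearMap.ker (ρ z - 1) with hK
  have hKi : Inv ρ K := by
    intro a v hv
    refine ⟨hWi a v hv.1, ?_⟩
    have h1 : ρ z v - v = 0 := hv.2
    change ρ z (ρ a v) - ρ a v = 0
    have h2 : ρ z (ρ a v) = ρ a (ρ z v) := by
      have h3 : ρ z * ρ a = ρ a * ρ z := by rw [← map_mul, hz, map_mul]
      exact LinearMap.congr_fun h3 v
    rw [h2, sub_eq_zero.1 h1, sub_self]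
  rcases hmin K inf_le_left hKi with h | h
  · right
    ext w
    have h1 : (w : V) + ρ z w ∈ K := by
      refine ⟨W.add_mem w.2 (hWi z _ w.2), ?_⟩
      change ρ z ((w : V) + ρ z w) - ((w : V) + ρ z w) = 0
      have h3 : ρ z (ρ z w) = w := by
        have h4 : ρ z * ρ z = 1 := by rw [← map_mul, hz2, map_one]
        exact LinearMap.congr_fun h4 w
      rw [map_add, h3, add_comm, sub_self]
    rw [h, Submodule.mem_bot] at h1
    exact (neg_eq_of_add_eq_zero_right h1).symm
  · left
    ext w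
    have h1 : (w : V) ∈ K := by rw [h]; exact w.2
    exact sub_eq_zero.1 h1.2

/-- the claim -/
theorem claim [Finite A] (Z : Subgroup A) (hZc : ∀ z ∈ Z, ∀ a, z * a = a * z)
    (hZ2 : ∀ z ∈ Z, z * z = 1) (hsq : ∀ a : A, a * a ∈ Z) (d : ℕ) :
    ∀ (V : Type) [AddCommGroup V] [Module ℝ V] [FiniteDimensional ℝ V], finrank ℝ V = d →
    ∀ (ρ : A →* (V →ₗ[ℝ] V)) (Ω0 K0 E0 : Subgroup A), Ω0 ≤ K0 → K0 ≤ Z → (∀ x ∈ E0, x * x ∈ K0) →
    ∃ (Ω1 K1 E1 : Subgroup A) (r c : ℕ), Ω1 ≤ Ω0 ∧ Ω1 ≤ K1 ∧ K1 ≤ K0 ∧ E1 ≤ E0 ∧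
      (∀ x ∈ E1, x * x ∈ K1) ∧ (∀ g ∈ Ω1, ρ g = 1) ∧ Nat.card Ω0 ≤ Nat.card Ω1 * 2 ^ r ∧
      Nat.card K1 * 2 ^ c ≤ Nat.card K0 ∧ Nat.card E0 ≤ Nat.card E1 * 2 ^ c ∧
      4 * r ≤ finrank ℝ V + 4 * c := by
  induction d using Nat.strong_induction_on with
  | _ d ih =>
    intro V _ _ _ hd ρ Ω0 K0 E0 hΩK hKZ hE
    by_cases htriv : ∀ g ∈ Ω0, ρ g = 1
    · exact ⟨Ω0, K0, E0, 0, 0, le_rfl, hΩK, le_rfl, le_rfl, hE, htriv, by simp, by simp, by simp,
        by simp⟩
    · push Not at htriv
      obtain ⟨g0, hg0, hg0n⟩ := htriv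
      let U := LinearMap.range (ρ g0 - 1)
      have hU : U ≠ ⊥ := by
        intro h
        exact hg0n (sub_eq_zero.1 (LinearMap.range_eq_bot.1 h))
      have hUi : Inv ρ U := by
        rintro a _ ⟨v, rfl⟩
        refine ⟨ρ a v, ?_⟩
        change ρ g0 (ρ a v) - ρ a v = ρ a (ρ g0 v - v)
        have h3 : ρ g0 * ρ a = ρ a * ρ g0 := by
          rw [← map_mul, hZc g0 (hKZ (hΩK hg0)), map_mul]
        have h4 : ρ g0 (ρ a v) = ρ a (ρ g0 v) := LinearMap.congr_fun h3 v
        rw [map_sub, h4]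
      obtain ⟨W, hWU, hW0, hWi, hmin⟩ := exists_min ρ U hU hUi
      have hsign : ∀ z ∈ Z, res ρ W hWi z = 1 ∨ res ρ W hWi z = -1 := fun z hz =>
        sign ρ W hWi hmin (hZc z hz) (hZ2 z hz)
      have hnt : Nontrivial W := Submodule.nontrivial_iff_ne_bot.2 hW0
      have hg0W : g0 ∉ KerW ρ W hWi := by
        intro hmem
        obtain ⟨w0, hw0W, hw0⟩ := Submodule.exists_mem_ne_zero_of_ne_bot hW0
        have h1 : ρ g0 w0 = w0 := congrArg Subtype.val (LinearMap.congr_fun hmem ⟨w0, hw0W⟩)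
        obtain ⟨u, hu⟩ := hWU hw0W
        have hu' : ρ g0 u - u = w0 := hu
        have h2 : ρ g0 (ρ g0 u) = u := by
          have h4 : ρ g0 * ρ g0 = 1 := by rw [← map_mul, hZ2 g0 (hKZ (hΩK hg0)), map_one]
          exact LinearMap.congr_fun h4 u
        have h3 : ρ g0 w0 = -w0 := by
          rw [← hu', map_sub, h2, neg_sub]
        rw [h1] at h3
        have h4 : (2 : ℝ) • w0 = 0 := by
          rw [two_smul]
          nth_rewrite 2 [h3]
          exact add_neg_cancel w0
        exact hw0 ((smul_eq_zero.1 h4).resolve_left two_ne_zero)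
      have hP2 : ∀ x y, x ∈ Ω0 → y ∈ Ω0 → x ∉ KerW ρ W hWi → y ∉ KerW ρ W hWi →
          x⁻¹ * y ∈ KerW ρ W hWi := by
        intro x y hx hy hxk hyk
        have h1 := (hsign x (hKZ (hΩK hx))).resolve_left hxk
        have h2 := (hsign y (hKZ (hΩK hy))).resolve_left hyk
        have h3 : x⁻¹ = x := inv_eq_of_mul_eq_one_left (hZ2 x (hKZ (hΩK hx)))
        change res ρ W hWi (x⁻¹ * y) = 1
        rw [h3, map_mul, h1, h2]
        exact neg_mul_neg_one_one
      have hΩ0' := half (KerW ρ W hWi) Ω0 hP2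
      have hfr : finrank ℝ (V ⧸ W) + finrank ℝ W = finrank ℝ V :=
        Submodule.finrank_quotient_add_finrank W
      have hWpos : 0 < finrank ℝ W := Module.finrank_pos
      -- lifting triviality
      have hlift : ∀ g ∈ Ω0 ⊓ KerW ρ W hWi, quo ρ W hWi g = 1 → ρ g = 1 := by
        intro g hg hq
        ext v
        have h2 : W.mkQ (ρ g v) = W.mkQ v := LinearMap.congr_fun hq (W.mkQ v)
        have h3 : ρ g v - v ∈ W := by
          rw [← Submodule.ker_mkQ W, LinearMap.mem_ker, map_sub, h2, sub_self]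
        have h4 : ρ g (ρ g v - v) = ρ g v - v :=
          congrArg Subtype.val (LinearMap.congr_fun hg.2 ⟨_, h3⟩)
        have h5 : ρ g (ρ g v) = v := by
          have h6 : ρ g * ρ g = 1 := by rw [← map_mul, hZ2 g (hKZ (hΩK hg.1)), map_one]
          exact LinearMap.congr_fun h6 v
        rw [map_sub, h5] at h4
        have h7 : (2 : ℝ) • (ρ g v - v) = 0 := by
          linear_combination (norm := module) -h4
        exact sub_eq_zero.1 ((smul_eq_zero.1 h7).resolve_left two_ne_zero)
      by_cases hW4 : 4 ≤ finrank ℝ W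
      · obtain ⟨Ω1, K1, E1, r, c, h1, h2, h3, h4, h5, h6, h7, h8, h9, h10⟩ :=
          ih (finrank ℝ (V ⧸ W)) (by omega) (V ⧸ W) rfl (quo ρ W hWi) (Ω0 ⊓ KerW ρ W hWi) K0 E0
            (inf_le_left.trans hΩK) hKZ hE
        refine ⟨Ω1, K1, E1, r + 1, c, h1.trans inf_le_left, h2, h3, h4, h5,
          fun g hg => hlift g (h1 hg) (h6 g hg), ?_, h8, h9, by omega⟩
        rw [pow_succ, ← mul_assoc]
        exact hΩ0'.trans (Nat.mul_le_mul_right _ h7)
      · obtain ⟨H, hH, hH2⟩ := caseB (res ρ W hWi) (by omega) (fun a => by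
          rw [← map_mul]
          exact hsign _ (hsq a))
        have hE0' := half H E0 (fun x y _ _ hx hy => hH x y hx hy)
        have hK0' := half' (KerW ρ W hWi) K0 (hΩK hg0) hg0W
        obtain ⟨Ω1, K1, E1, r, c, h1, h2, h3, h4, h5, h6, h7, h8, h9, h10⟩ :=
          ih (finrank ℝ (V ⧸ W)) (by omega) (V ⧸ W) rfl (quo ρ W hWi) (Ω0 ⊓ KerW ρ W hWi)
            (K0 ⊓ KerW ρ W hWi) (E0 ⊓ H) (inf_le_inf_right _ hΩK) (inf_le_left.trans hKZ)
            (fun x hx => ⟨hE x hx.1, by
              change res ρ W hWi (x * x) = 1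
              rw [map_mul]
              exact hH2 x hx.2⟩)
        refine ⟨Ω1, K1, E1, r + 1, c + 1, h1.trans inf_le_left, h2, h3.trans inf_le_left,
          h4.trans inf_le_left, h5, fun g hg => hlift g (h1 hg) (h6 g hg), ?_, ?_, ?_, by omega⟩
        · rw [pow_succ, ← mul_assoc]
          exact hΩ0'.trans (Nat.mul_le_mul_right _ h7)
        · rw [pow_succ, ← mul_assoc]
          exact (Nat.mul_le_mul_right _ h8).trans hK0'
        · rw [pow_succ, ← mul_assoc]
          exact hE0'.trans (Nat.mul_le_mul_right _ h9)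

end rep

section count

/-- the map to the quotient by the centre -/
def hq : QuaternionGroup 2 →* ℤˣ × ℤˣ where
  toFun
    | .a i => ((-1) ^ i.val, 1)
    | .xa i => ((-1) ^ i.val, -1)
  map_one' := by decide
  map_mul' := by decide

theorem hq_iff (x : QuaternionGroup 2) : hq x = 1 ↔ x * x = 1 := by
  revert x
  decide

theorem hq_iff2 (x : QuaternionGroup 2) : hq x = 1 ↔ ∃ e : ℤˣ, x =
    if e = 1 then 1 else QuaternionGroup.a 2 := by
  revert x
  decide

theorem sq_iff (x : QuaternionGroup 2) : ∃ e : ℤˣ, x * x =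
    if e = 1 then 1 else QuaternionGroup.a 2 := by
  revert x
  decide

theorem z_comm (x : QuaternionGroup 2) (e : ℤˣ) :
    (if e = 1 then 1 else QuaternionGroup.a 2) * x =
      x * (if e = 1 then 1 else QuaternionGroup.a 2) := by
  revert x e
  decide

theorem z_sq (e : ℤˣ) :
    (if e = 1 then 1 else QuaternionGroup.a 2) * (if e = 1 then 1 else QuaternionGroup.a 2) =
      (1 : QuaternionGroup 2) := by
  revert e
  decide

theorem z_mul (e e' : ℤˣ) :
    (if e * e' = 1 then 1 else QuaternionGroup.a 2) =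
      ((if e = 1 then 1 else QuaternionGroup.a 2) * (if e' = 1 then 1 else QuaternionGroup.a 2) :
        QuaternionGroup 2) := by
  revert e e'
  decide

variable {n : ℕ}

instance finQ : Finite (Fin n → QuaternionGroup 2) := inferInstance

/-- information sets -/
theorem info (T : Finset (Fin n)) : ∀ K : Subgroup (Fin n → QuaternionGroup 2),
    ∃ T' ⊆ T, (∀ κ ∈ K, (∀ t ∈ T', κ t = 1) → ∀ t ∈ T, κ t = 1) ∧ 2 ^ T'.card ≤ Nat.card K := by
  classical
  induction T using Finset.induction_on with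
  | empty =>
    intro K
    refine ⟨∅, subset_rfl, fun κ _ h => h, ?_⟩
    rw [Finset.card_empty, pow_zero]
    exact Nat.card_pos
  | insert t T ht ih =>
    intro K
    set Kt : Subgroup (Fin n → QuaternionGroup 2) :=
      (Pi.evalMonoidHom (fun _ : Fin n => QuaternionGroup 2) t).ker with hKt
    obtain ⟨T', hT', h1, h2⟩ := ih (K ⊓ Kt)
    by_cases hK : ∃ κ ∈ K, κ t ≠ 1
    · obtain ⟨κ, hκK, hκ⟩ := hK
      refine ⟨insert t T', Finset.insert_subset_insert t hT', ?_, ?_⟩
      · intro κ' hκ' h t' ht'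
        have h3 : κ' t = 1 := h t (Finset.mem_insert_self _ _)
        rcases Finset.mem_insert.1 ht' with rfl | ht'
        · exact h3
        · exact h1 κ' ⟨hκ', h3⟩ (fun t'' ht'' => h t'' (Finset.mem_insert_of_mem ht'')) t' ht'
      · have h3 : κ ∉ Kt := hκ
        have h4 := half' Kt K hκK h3
        rw [Finset.card_insert_of_notMem (fun h => ht (hT' h)), pow_succ]
        exact (Nat.mul_le_mul_right _ h2).trans h4
    · push Not at hK
      refine ⟨T', hT'.trans (Finset.subset_insert t T), ?_, ?_⟩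
      · intro κ' hκ' h t' ht'
        rcases Finset.mem_insert.1 ht' with rfl | ht'
        · exact hK κ' hκ'
        · exact h1 κ' ⟨hκ', hK κ' hκ'⟩ h t' ht'
      · exact h2.trans (Nat.card_le_card_of_injective _
          (Subgroup.inclusion_injective (inf_le_left : K ⊓ Kt ≤ K)))

/-- counting -/
theorem counting (E1 K1 ΩE : Subgroup (Fin n → QuaternionGroup 2))
    (hsq : ∀ x ∈ E1, x * x ∈ K1) (hΩ : ∀ x ∈ E1, x * x = 1 → x ∈ ΩE) :
    Nat.card E1 ≤ Nat.card ΩE * Nat.card K1 ^ 2 := by
  classical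
  obtain ⟨T, -, hT, hTc⟩ := info (Finset.univ : Finset (Fin n)) K1
  let Φ : E1 →* (T → ℤˣ × ℤˣ) :=
    { toFun := fun x t => hq (x.1 t.1)
      map_one' := by
        funext t
        exact map_one hq
      map_mul' := fun x y => by
        funext t
        exact map_mul hq _ _ }
  have h1 : Nat.card E1 = Nat.card (E1 ⧸ Φ.ker) * Nat.card Φ.ker :=
    Subgroup.card_eq_card_quotient_mul_card_subgroup _
  have h2 : Nat.card (E1 ⧸ Φ.ker) = Nat.card Φ.range :=
    Nat.card_congr (QuotientGroup.quotientKerEquivRange Φ).toEquiv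
  have h3 : Nat.card Φ.range ≤ 4 ^ T.card := by
    refine (Nat.card_le_card_of_injective _ Φ.range.subtype_injective).trans ?_
    rw [Nat.card_fun, Nat.card_prod, Nat.card_eq_fintype_card (α := ℤˣ), Fintype.card_units_int,
      Nat.card_eq_fintype_card (α := T), Fintype.card_coe]
  have h4 : Nat.card Φ.ker ≤ Nat.card ΩE := by
    refine Nat.card_le_card_of_injective (fun x : Φ.ker => (⟨x.1.1, ?_⟩ : ΩE)) ?_
    · refine hΩ _ x.1.2 ?_
      funext t
      refine hT _ (hsq _ x.1.2) ?_ t (Finset.mem_univ t)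
      intro t ht
      have h5 : Φ x.1 = 1 := x.2
      have h6 : hq (x.1.1 t) = 1 := congrFun h5 ⟨t, ht⟩
      exact (hq_iff _).1 h6
    · intro x y hxy
      have := congrArg (fun z : ΩE => z.1) hxy
      exact Subtype.ext (Subtype.ext this)
  have h7 : 4 ^ T.card ≤ Nat.card K1 ^ 2 := by
    have : (4 : ℕ) ^ T.card = (2 ^ T.card) ^ 2 := by
      rw [← pow_mul, mul_comm, pow_mul]
      norm_num
    rw [this]
    exact Nat.pow_le_pow_left hTc 2
  rw [h1, h2, mul_comm]
  exact Nat.mul_le_mul h4 (h3.trans h7)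

end count

section final

open Q4.ZS (zq)

variable {n : ℕ}

/-- the sign elements -/
def zqh (n : ℕ) : (Fin n → ℤˣ) →* (Fin n → QuaternionGroup 2) where
  toFun := zq
  map_one' := by
    funext i
    exact if_pos rfl
  map_mul' ε ε' := by
    funext i
    exact z_mul (ε i) (ε' i)

theorem arith {n k c r M e e1 k1 o : ℕ} (h1 : 8 ^ n ≤ e * 2 ^ k) (h2 : e ≤ e1 * 2 ^ c)
    (h3 : e1 ≤ M * k1 ^ 2) (h4 : k1 * 2 ^ c ≤ M) (h5 : M ≤ 2 ^ n) (h6 : M ≤ o * 2 ^ r)
    (h7 : r + k + 2 ≤ n + c) : 3 ≤ o := by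
  by_contra hlt
  have h8 : e * 2 ^ c ≤ M * (2 ^ n) ^ 2 := by
    calc e * 2 ^ c ≤ (M * k1 ^ 2 * 2 ^ c) * 2 ^ c :=
          Nat.mul_le_mul_right _ (h2.trans (Nat.mul_le_mul_right _ h3))
      _ = M * (k1 * 2 ^ c) ^ 2 := by ring
      _ ≤ M * (2 ^ n) ^ 2 :=
          Nat.mul_le_mul_left _ (Nat.pow_le_pow_left (h4.trans h5) 2)
  have h9 : 2 ^ (n + c) * (2 ^ n) ^ 2 ≤ M * 2 ^ k * (2 ^ n) ^ 2 := by
    calc 2 ^ (n + c) * (2 ^ n) ^ 2 = 8 ^ n * 2 ^ c := by
          have : (8 : ℕ) ^ n = 2 ^ n * (2 ^ n) ^ 2 := by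
            rw [show (8 : ℕ) = 2 ^ 3 by norm_num, ← pow_mul, ← pow_mul, ← pow_add]
            congr 1
            ring
          rw [this, pow_add]
          ring
      _ ≤ (e * 2 ^ k) * 2 ^ c := Nat.mul_le_mul_right _ h1
      _ = (e * 2 ^ c) * 2 ^ k := by ring
      _ ≤ (M * (2 ^ n) ^ 2) * 2 ^ k := Nat.mul_le_mul_right _ h8
      _ = M * 2 ^ k * (2 ^ n) ^ 2 := by ring
  have h10 : 2 ^ (n + c) ≤ M * 2 ^ k := Nat.le_of_mul_le_mul_right h9 (by positivity)
  have h11 : M * 2 ^ k ≤ 2 ^ (r + k + 1) := by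
    calc M * 2 ^ k ≤ (2 * 2 ^ r) * 2 ^ k :=
          Nat.mul_le_mul_right _ (h6.trans (Nat.mul_le_mul_right _ (by omega)))
      _ = 2 ^ (r + k + 1) := by ring
  have h12 : n + c ≤ r + k + 1 := (Nat.pow_le_pow_iff_right (by norm_num)).1 (h10.trans h11)
  omega

theorem tRep2 : Q4.ZS.SRep2 := by
  intro n k E hE V _ _ _ ρ hV
  classical
  set Z : Subgroup E := (zqh n).range.subgroupOf E with hZ
  have hZm : ∀ x : E, x ∈ Z ↔ ∃ ε, zq ε = x.1 := fun x => Iff.rfl
  have hZc : ∀ z ∈ Z, ∀ a, z * a = a * z := by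
    intro z hz a
    obtain ⟨ε, hε⟩ := (hZm z).1 hz
    apply Subtype.ext
    change z.1 * a.1 = a.1 * z.1
    rw [← hε]
    funext i
    exact z_comm (a.1 i) (ε i)
  have hZ2 : ∀ z ∈ Z, z * z = 1 := by
    intro z hz
    obtain ⟨ε, hε⟩ := (hZm z).1 hz
    apply Subtype.ext
    change z.1 * z.1 = 1
    rw [← hε]
    funext i
    exact z_sq (ε i)
  have hsq : ∀ a : E, a * a ∈ Z := by
    intro a
    rw [hZm]
    choose ε hε using fun i => sq_iff (a.1 i)
    refine ⟨ε, ?_⟩
    funext i
    exact (hε i).symm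
  obtain ⟨Ω1, K1, E1, r, c, h1, h2, h3, -, h5, h6, h7, h8, h9, h10⟩ :=
    claim Z hZc hZ2 hsq _ V rfl ρ Z Z ⊤ le_rfl le_rfl (fun x _ => hsq x)
  have hcard : ∀ H : Subgroup E, Nat.card (H.map E.subtype) = Nat.card H := fun H =>
    Nat.card_congr (H.equivMapOfInjective E.subtype E.subtype_injective).toEquiv.symm
  have hcount := counting (E1.map E.subtype) (K1.map E.subtype) (Z.map E.subtype) (by
      rintro _ ⟨x, hx, rfl⟩
      exact ⟨x * x, h5 x hx, rfl⟩) (by
      rintro _ ⟨x, hx, rfl⟩ hxx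
      refine ⟨x, ?_, rfl⟩
      change x ∈ Z
      rw [hZm]
      have h11 : ∀ i, ∃ e : ℤˣ, x.1 i = if e = 1 then 1 else QuaternionGroup.a 2 := fun i =>
        (hq_iff2 _).1 ((hq_iff _).2 (congrFun hxx i))
      choose ε hε using h11
      refine ⟨ε, ?_⟩
      funext i
      exact (hε i).symm)
  rw [hcard, hcard, hcard] at hcount
  have hM : Nat.card Z ≤ 2 ^ n := by
    rw [← hcard Z]
    have h11 : Z.map E.subtype ≤ (zqh n).range := by
      rintro _ ⟨x, hx, rfl⟩
      exact hx
    refine (Nat.card_le_card_of_injective _ (Subgroup.inclusion_injective h11)).trans ?_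
    have h12 : Nat.card (zqh n).range ≤ Nat.card (Fin n → ℤˣ) :=
      Nat.card_le_card_of_surjective (zqh n).rangeRestrict (zqh n).rangeRestrict_surjective
    refine h12.trans (le_of_eq ?_)
    rw [Nat.card_fun, Nat.card_eq_fintype_card (α := ℤˣ), Fintype.card_units_int, Nat.card_fin]
  have hidx : 8 ^ n ≤ Nat.card E * 2 ^ k := by
    have h11 : Nat.card E * E.index = 8 ^ n := by
      rw [Subgroup.card_mul_index, Nat.card_fun, Nat.card_fin]
      congr 1
      rw [Nat.card_eq_fintype_card]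
      decide
    rw [← h11]
    exact Nat.mul_le_mul_left _ hE
  rw [Subgroup.card_top] at h9
  have ho : 3 ≤ Nat.card Ω1 := arith hidx h9 hcount h8 hM h7 (by omega)
  -- a nonconstant element
  obtain ⟨x, hx, hx1, hx2⟩ : ∃ x ∈ Ω1, x.1 ≠ zq (fun _ => 1) ∧ x.1 ≠ zq (fun _ => -1) := by
    by_contra hcon
    push Not at hcon
    have h11 : Function.Injective (fun x : Ω1 => if x.1.1 = zq (fun _ => 1) then true else false) := by
      intro x y hxy
      by_cases hx : x.1.1 = zq (fun _ => 1) <;> by_cases hy : y.1.1 = zq (fun _ => 1)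
      · exact Subtype.ext (Subtype.ext (hx.trans hy.symm))
      · simp only [if_pos hx, if_neg hy] at hxy
        exact absurd hxy Bool.noConfusion
      · simp only [if_neg hx, if_pos hy] at hxy
        exact absurd hxy Bool.noConfusion
      · exact Subtype.ext (Subtype.ext ((hcon x.1 x.2 hx).trans (hcon y.1 y.2 hy).symm))
    have h12 := Nat.card_le_card_of_injective _ h11
    rw [Nat.card_eq_fintype_card (α := Bool), Fintype.card_bool] at h12
    omega
  obtain ⟨ε, hε⟩ := (hZm x).1 (h1 hx)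
  have hmem : zq ε ∈ E := by rw [hε]; exact x.2
  refine ⟨ε, hmem, ?_, ?_⟩
  · by_contra hcon
    push Not at hcon
    rcases Nat.eq_zero_or_pos n with hn | hn
    · subst hn
      apply hx1
      funext i
      exact i.elim0
    · have h13 : ε = fun _ => ε ⟨0, hn⟩ := by
        funext i
        exact hcon _ _
      rcases Int.units_eq_one_or (ε ⟨0, hn⟩) with h14 | h14
      · rw [h14] at h13
        exact hx1 (by rw [← hε, h13])
      · rw [h14] at h13
        exact hx2 (by rw [← hε, h13])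
  · have h15 : (⟨zq ε, hmem⟩ : E) = x := Subtype.ext hε
    rw [h15]
    exact h6 x hx

end final

end Q150.ZS
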