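import Pool.Agent.Q255.ZS.Stm

/-!
# Project ZS (helper255): the system of the powers of a point of the circle, and small weights

`S_SYS`, `S_WG` of `Pool.Agent.Q255.ZS.Stm`.
-/

set_option autoImplicit false

namespace Pool.Agent.Q150.ZS

open MeasureTheory Filter Topology Finset
open Q289.PAM
open Pool.Agent.Q255.RM (f fac)
open Pool.Agent.Q255.HC (Sys ex)
open Pool.Agent.Q255.ZS

theorem int_fourier {j : ℤ} (hj : j ≠ 0) : ∫ x : UnitAddCircle, fourier j x = 0 := by
  have h := integral_eq_zero_of_add_right_eq_neg (μ := (volume : Measure UnitAddCircle))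
    (fourier_add_half_inv_index (T := 1) hj one_pos)
  exact h

theorem vsum_nat (n : ℕ) : ∑ i ∈ range n, 1 / (4 * ((i : ℝ) + 1) ^ 2) ≤ 1 / 2 := by
  have h : ∀ n : ℕ, ∑ i ∈ range n, 1 / (4 * ((i : ℝ) + 1) ^ 2) ≤ 1 / 2 - 1 / (4 * ((n : ℝ) + 1 / 2)) := by
    intro n
    induction n with
    | zero => norm_num
    | succ n ih =>
      rw [sum_range_succ]
      have hn : (0 : ℝ) ≤ n := Nat.cast_nonneg n
      have h1 : 1 / (4 * ((n : ℝ) + 1) ^ 2) ≤ 1 / (4 * ((n : ℝ) + 1 / 2)) - 1 / (4 * (((n : ℝ) + 1) + 1 / 2)) := by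
        rw [div_sub_div _ _ (by positivity) (by positivity), div_le_div_iff₀ (by positivity) (by positivity)]
        nlinarith [hn, mul_nonneg hn hn]
      push_cast
      linarith
  have h2 := h n
  have h3 : (0 : ℝ) < 1 / (4 * ((n : ℝ) + 1 / 2)) := by positivity
  linarith

theorem vsum_abs (S : Finset ℤ) (h0 : (0 : ℤ) ∉ S) : ∑ j ∈ S, 1 / (4 * (j : ℝ) ^ 2) ≤ 1 := by
  -- split into positive and negative parts
  have hpart : ∀ (S : Finset ℤ), (∀ j ∈ S, 0 < j) → ∑ j ∈ S, 1 / (4 * (j : ℝ) ^ 2) ≤ 1 / 2 := by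
    intro S hS
    obtain ⟨n, hn⟩ : ∃ n : ℕ, ∀ j ∈ S, j.toNat ≤ n := by
      refine ⟨S.sup Int.toNat, fun j hj => Finset.le_sup (f := Int.toNat) hj⟩
    have hsub : ∑ j ∈ S, 1 / (4 * (j : ℝ) ^ 2) ≤ ∑ i ∈ range n, 1 / (4 * ((i : ℝ) + 1) ^ 2) := by
      have e : ∀ j ∈ S, 1 / (4 * (j : ℝ) ^ 2) = 1 / (4 * (((j.toNat - 1 : ℕ) : ℝ) + 1) ^ 2) := by
        intro j hj
        have hj0 := hS j hj
        have h1 : ((j.toNat - 1 : ℕ) : ℝ) + 1 = (j : ℝ) := by
          have h2 : ((j.toNat - 1 : ℕ) : ℤ) + 1 = j := by omega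
          exact_mod_cast h2
        rw [h1]
      rw [sum_congr rfl e]
      have hinj : Set.InjOn (fun j : ℤ => j.toNat - 1) (S : Set ℤ) := by
        intro x hx y hy hxy
        have hx0 := hS x hx
        have hy0 := hS y hy
        simp only at hxy
        omega
      rw [← Finset.sum_image (f := fun i : ℕ => 1 / (4 * ((i : ℝ) + 1) ^ 2)) (g := fun j : ℤ => j.toNat - 1) hinj]
      refine sum_le_sum_of_subset_of_nonneg ?_ fun i _ _ => by positivity
      intro i hi
      rw [mem_image] at hi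
      obtain ⟨j, hj, rfl⟩ := hi
      have := hn j hj
      have := hS j hj
      rw [mem_range]
      omega
    exact hsub.trans (vsum_nat n)
  rw [← sum_filter_add_sum_filter_not S (fun j => 0 < j)]
  have h1 := hpart (S.filter fun j => 0 < j) (fun j hj => (mem_filter.1 hj).2)
  have h2 := hpart ((S.filter fun j => ¬ 0 < j).image fun j => -j) (fun j hj => by
    rw [mem_image] at hj
    obtain ⟨i, hi, rfl⟩ := hj
    rw [mem_filter] at hi
    have : i ≠ 0 := fun h => h0 (h ▸ hi.1)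
    have := hi.2
    omega)
  rw [sum_image (fun x _ y _ h => neg_injective h)] at h2
  have h3 : ∑ x ∈ S.filter (fun j => ¬ 0 < j), 1 / (4 * (((-x : ℤ)) : ℝ) ^ 2) =
      ∑ x ∈ S.filter (fun j => ¬ 0 < j), 1 / (4 * (x : ℝ) ^ 2) := by
    refine sum_congr rfl fun x _ => ?_
    push_cast
    rw [neg_sq]
  rw [h3] at h2
  linarith

theorem chi_eq_ex (x : ℕ →₀ ℤ) (ω : ℕ → UnitAddCircle) : chi x ω = ex ec x ω := by
  unfold chi ex ec Finsupp.sum
  simp only [fourier_apply]
  induction x.support using Finset.induction_on with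
  | empty => simp
  | insert a s ha ih =>
    rw [Finset.sum_insert ha, Finset.prod_insert ha, AddCircle.toCircle_add, Circle.coe_mul, ih]

/-- **SYS** -/
theorem t_SYS : S_SYS := by
  refine ⟨⟨fun j => ?_, fun j x => ?_, fun x => ?_, fun j hj => int_fourier hj, fun j => ?_,
    fun S hS => ?_⟩, ?_⟩
  · exact (fourier j).continuous.measurable
  · unfold ec
    rw [fourier_apply]
    exact (Circle.norm_coe _).le
  · unfold ec
    exact fourier_zero
  · unfold vc
    split_ifs with h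
    · exact le_rfl
    · have h1 : (1 : ℝ) ≤ (j : ℝ) ^ 2 := by
        have h2 : 1 ≤ j ^ 2 := by
          have : 0 < j ^ 2 := by positivity
          omega
        exact_mod_cast h2
      linarith
  · have h1 : ∑ j ∈ S, 1 / vc j = ∑ j ∈ S, 1 / (4 * (j : ℝ) ^ 2) := by
      refine sum_congr rfl fun j hj => ?_
      unfold vc
      rw [if_neg (fun h : j = 0 => hS (h ▸ hj))]
    rw [h1]
    exact vsum_abs S hS
  · intro ω a b ha hb
    rw [Pool.Agent.Q255.RM.f_eq_chi, Pool.Agent.Q255.RM.f_eq_chi, ← Pool.Agent.Q255.RM.chi_sub,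
      chi_eq_ex]

/-- **WG** -/
theorem t_WG : S_WG := by
  intro K hK η hη
  obtain ⟨s, hs⟩ : ∃ s : ℕ, 4 * K ≤ 2 ^ s := by
    obtain ⟨s, hs⟩ := pow_unbounded_of_one_lt (4 * K) (one_lt_two : (1 : ℝ) < 2)
    exact ⟨s, hs.le⟩
  have hs2 : (0 : ℝ) < ((s + 2 : ℕ) : ℝ) := by positivity
  obtain ⟨C, hC, hdiv⟩ := Pool.Agent.Helper112.divisor_bound (η / ((s + 2 : ℕ) : ℝ)) (by positivity)
  refine ⟨C ^ (s + 2), by positivity, fun a b ha hb => ?_⟩
  have ha0 : a ≠ 0 := by omega
  have hb0 : b ≠ 0 := by omega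
  have hab : a * b ≠ 0 := mul_ne_zero ha0 hb0
  have hle : ∀ p, |((fac a - fac b) p : ℤ)| ≤ ((a * b).factorization p : ℤ) := by
    intro p
    rw [Finsupp.sub_apply, Pool.Agent.Q255.RM.fac_apply, Pool.Agent.Q255.RM.fac_apply,
      Nat.factorization_mul ha0 hb0, Finsupp.add_apply]
    push_cast
    rw [abs_le]
    constructor <;> omega
  have h1 : ∏ p ∈ (fac a - fac b).support, (K * vc ((fac a - fac b) p)) ≤
      ∏ p ∈ (fac a - fac b).support, (((a * b).factorization p : ℝ) + 1) ^ (s + 2) := by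
    refine prod_le_prod (fun p hp => ?_) fun p hp => ?_
    · have : 0 ≤ vc ((fac a - fac b) p) := by
        unfold vc
        split_ifs
        · exact zero_le_one
        · positivity
      positivity
    · have hp0 : (fac a - fac b) p ≠ 0 := Finsupp.mem_support_iff.1 hp
      unfold vc
      rw [if_neg hp0]
      obtain ⟨j, hj⟩ : ∃ j : ℝ, j = |(((fac a - fac b) p : ℤ) : ℝ)| := ⟨_, rfl⟩
      have h2 : (((fac a - fac b) p : ℤ) : ℝ) ^ 2 = j ^ 2 := by rw [hj, sq_abs]
      have h3 : j ≤ ((a * b).factorization p : ℝ) := by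
        rw [hj]
        exact_mod_cast hle p
      have h4 : 1 ≤ j := by
        rw [hj]
        have : 1 ≤ |((fac a - fac b) p : ℤ)| := Int.one_le_abs hp0
        exact_mod_cast this
      rw [h2]
      calc K * (4 * j ^ 2) = (4 * K) * j ^ 2 := by ring
        _ ≤ 2 ^ s * j ^ 2 := mul_le_mul_of_nonneg_right hs (by positivity)
        _ ≤ (((a * b).factorization p : ℝ) + 1) ^ s * (((a * b).factorization p : ℝ) + 1) ^ 2 := by
            refine mul_le_mul ?_ ?_ (by positivity) (by positivity)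
            · exact pow_le_pow_left₀ (by norm_num) (by linarith) s
            · exact pow_le_pow_left₀ (by linarith) (by linarith) 2
        _ = _ := by rw [← pow_add]
  have hsup : (fac a - fac b).support ⊆ (a * b).primeFactors := by
    intro p hp
    have hp0 : (fac a - fac b) p ≠ 0 := Finsupp.mem_support_iff.1 hp
    rw [← Nat.support_factorization, Finsupp.mem_support_iff]
    intro h
    have h2 := hle p
    rw [h] at h2
    apply hp0
    have h3 := abs_nonneg ((fac a - fac b) p : ℤ)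
    exact abs_eq_zero.1 (le_antisymm (by exact_mod_cast h2) h3)
  have h2 : ∏ p ∈ (fac a - fac b).support, (((a * b).factorization p : ℝ) + 1) ^ (s + 2) ≤
      ∏ p ∈ (a * b).primeFactors, (((a * b).factorization p : ℝ) + 1) ^ (s + 2) := by
    rw [← prod_sdiff hsup]
    refine le_mul_of_one_le_left (prod_nonneg fun p _ => by positivity) ?_
    have h3 : ∏ p ∈ (a * b).primeFactors \ (fac a - fac b).support, (1 : ℝ) ≤
        ∏ p ∈ (a * b).primeFactors \ (fac a - fac b).support,
          (((a * b).factorization p : ℝ) + 1) ^ (s + 2) :=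
      prod_le_prod (fun _ _ => zero_le_one) fun p _ =>
        one_le_pow₀ (by linarith [(Nat.cast_nonneg ((a * b).factorization p) : (0 : ℝ) ≤ _)])
    rwa [prod_const_one] at h3
  have h3 : ∏ p ∈ (a * b).primeFactors, (((a * b).factorization p : ℝ) + 1) ^ (s + 2) =
      ((a * b).divisors.card : ℝ) ^ (s + 2) := by
    rw [prod_pow, Nat.card_divisors hab]
    push_cast
    rfl
  have h4 := hdiv (a * b) (by
    have := Nat.pos_of_ne_zero hab
    omega)
  calc ∏ p ∈ (fac a - fac b).support, (K * vc ((fac a - fac b) p))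
      ≤ ((a * b).divisors.card : ℝ) ^ (s + 2) := h1.trans (h2.trans h3.le)
    _ ≤ (C * ((a * b : ℕ) : ℝ) ^ (η / ((s + 2 : ℕ) : ℝ))) ^ (s + 2) :=
        pow_le_pow_left₀ (Nat.cast_nonneg _) h4 _
    _ = C ^ (s + 2) * ((a : ℝ) * b) ^ η := by
        rw [mul_pow, ← Real.rpow_natCast (((a * b : ℕ) : ℝ) ^ (η / ((s + 2 : ℕ) : ℝ))),
          ← Real.rpow_mul (Nat.cast_nonneg _), div_mul_cancel₀ _ hs2.ne']
        push_cast
        rfl

end Pool.Agent.Q150.ZS
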